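import Pool.Agent.Helper3.DL.Defs
import Pool.Agent.Helper4.DL.Cells
import Pool.Agent.Helper4.DL.Binom

/-!
# Cells of monomial curves (module DL-5)
-/

namespace Pool.Agent.DL

open MeasureTheory Finset

variable {n k : ℕ}

namespace CC

/-- values of a linear functional on the powers of `u + ρ s` -/
noncomputable def TT (μ : ℕ → ℝ) (u ρ : ℝ) (m : ℕ) : ℝ :=
  ∑ a ∈ range (m + 1), (m.choose a : ℝ) * u ^ (m - a) * ρ ^ a * μ a

/-- the functional with given moments -/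
noncomputable def TTf (μ : ℕ → ℝ) : Polynomial ℝ →ₗ[ℝ] ℝ :=
  Polynomial.lsum fun a => (LinearMap.id : ℝ →ₗ[ℝ] ℝ).smulRight (μ a)

theorem TTf_monomial (μ : ℕ → ℝ) (a : ℕ) (c : ℝ) :
    TTf μ (Polynomial.monomial a c) = c * μ a := by
  simp [TTf, Polynomial.lsum_apply, Polynomial.sum_monomial_index]

theorem TT_eq (μ : ℕ → ℝ) (u ρ : ℝ) (m : ℕ) :
    TTf μ ((Polynomial.C ρ * Polynomial.X + Polynomial.C u) ^ m) = TT μ u ρ m := by
  rw [add_pow, map_sum, TT]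
  refine Finset.sum_congr rfl fun a _ => ?_
  have h : (Polynomial.C ρ * Polynomial.X) ^ a * Polynomial.C u ^ (m - a) *
      ((m.choose a : ℕ) : Polynomial ℝ) =
      Polynomial.monomial a ((m.choose a : ℝ) * u ^ (m - a) * ρ ^ a) := by
    rw [← Polynomial.C_mul_X_pow_eq_monomial, mul_pow]
    simp only [Polynomial.C_mul, Polynomial.C_pow, Polynomial.C_eq_natCast]
    ring
  rw [h, TTf_monomial]

theorem TT_comp (μ : ℕ → ℝ) (u σ v ρ : ℝ) (m : ℕ) :
    TT μ (u + σ * v) (σ * ρ) m = TT (fun a => TT μ v ρ a) u σ m := by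
  rw [← TT_eq]
  have h : (Polynomial.C (σ * ρ) * Polynomial.X + Polynomial.C (u + σ * v) : Polynomial ℝ) =
      Polynomial.C σ * (Polynomial.C ρ * Polynomial.X + Polynomial.C v) + Polynomial.C u := by
    simp only [Polynomial.C_mul, Polynomial.C_add]; ring
  rw [h, add_pow, map_sum, TT]
  refine Finset.sum_congr rfl fun a _ => ?_
  rw [← TT_eq μ v ρ a]
  have h2 : (Polynomial.C σ * (Polynomial.C ρ * Polynomial.X + Polynomial.C v)) ^ a *
      Polynomial.C u ^ (m - a) * ((m.choose a : ℕ) : Polynomial ℝ) =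
      ((m.choose a : ℝ) * u ^ (m - a) * σ ^ a) •
        (Polynomial.C ρ * Polynomial.X + Polynomial.C v) ^ a := by
    rw [Polynomial.smul_eq_C_mul, mul_pow]
    simp only [Polynomial.C_mul, Polynomial.C_pow, Polynomial.C_eq_natCast]
    ring
  rw [h2, map_smul, smul_eq_mul]

theorem TT_bound {μ : ℕ → ℝ} {C v ρ : ℝ} (hC : 0 ≤ C) (hμ : ∀ a, |μ a| ≤ C) (hv : 0 ≤ v)
    (hρ : 0 ≤ ρ) (h : v + ρ ≤ 1) (m : ℕ) : |TT μ v ρ m| ≤ C := by
  calc |TT μ v ρ m| ≤ ∑ a ∈ range (m + 1), (m.choose a : ℝ) * v ^ (m - a) * ρ ^ a * C := by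
        refine (abs_sum_le_sum_abs _ _).trans (Finset.sum_le_sum fun a _ => ?_)
        rw [abs_mul, abs_of_nonneg (by positivity)]
        exact mul_le_mul_of_nonneg_left (hμ a) (by positivity)
    _ = (ρ + v) ^ m * C := by
        rw [add_pow, Finset.sum_mul]
        refine Finset.sum_congr rfl fun a _ => ?_
        ring
    _ ≤ 1 * C := by
        refine mul_le_mul_of_nonneg_right (pow_le_one₀ (by positivity) (by linarith)) hC
    _ = C := one_mul C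

/-- the moments of the functional attached to a point of the cell -/
noncomputable def ext1 (lam : Fin n → ℝ) (a : ℕ) : ℝ :=
  if a = 0 then 1 else if h : a - 1 < n then lam ⟨a - 1, h⟩ else 0

theorem ext1_bound {lam : Fin n → ℝ} {C : ℝ} (hC : 1 ≤ C) (h : lam ∈ box n C) (a : ℕ) :
    |ext1 lam a| ≤ C := by
  unfold ext1
  split_ifs with h1 h2
  · simpa using hC
  · exact h _
  · simpa using (zero_le_one.trans hC)

theorem ext1_zero (lam : Fin n → ℝ) : ext1 lam 0 = 1 := by simp [ext1]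

/-- sums over `range m` with binomial coefficients -/
theorem sum_choose_extend (m M : ℕ) (h : m ≤ M) (F : ℕ → ℝ) :
    ∑ i ∈ range m, (m.choose (i + 1) : ℝ) * F i = ∑ i ∈ range M, (m.choose (i + 1) : ℝ) * F i := by
  refine Finset.sum_subset (Finset.range_mono h) fun i _ hi => ?_
  have h2 : m < i + 1 := by
    have : ¬ i < m := fun h3 => hi (Finset.mem_range.2 h3)
    omega
  rw [Nat.choose_eq_zero_of_lt h2]
  simp

theorem TT_succ (μ : ℕ → ℝ) (u ρ : ℝ) (m : ℕ) :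
    TT μ u ρ m = u ^ m * μ 0 + ∑ i ∈ range m, (m.choose (i + 1) : ℝ) *
      (u ^ (m - (i + 1)) * ρ ^ (i + 1) * μ (i + 1)) := by
  rw [TT, Finset.sum_range_succ']
  simp only [Nat.choose_zero_right, Nat.cast_one, tsub_zero, one_mul, pow_zero, mul_one]
  rw [add_comm]
  congr 1
  refine Finset.sum_congr rfl fun i _ => ?_
  ring

theorem P_eq_TT (e : Fin n → ℕ) (u ρ : ℝ) (lam : Fin n → ℝ) (j : Fin n) :
    P e u ρ lam j = TT (ext1 lam) u ρ (e j) := by
  rw [TT_succ, ext1_zero, mul_one, P]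
  congr 1
  rw [sum_choose_extend (e j) (e j + n) (Nat.le_add_right _ _)]
  have h1 : ∑ i ∈ range (e j + n), ((e j).choose (i + 1) : ℝ) *
      (u ^ (e j - (i + 1)) * ρ ^ (i + 1) * ext1 lam (i + 1)) =
      ∑ i ∈ range n, ((e j).choose (i + 1) : ℝ) *
      (u ^ (e j - (i + 1)) * ρ ^ (i + 1) * ext1 lam (i + 1)) := by
    symm
    refine Finset.sum_subset (Finset.range_mono (Nat.le_add_left _ _)) fun i _ hi => ?_
    have h2 : ¬ i < n := fun h3 => hi (Finset.mem_range.2 h3)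
    have h3 : ext1 lam (i + 1) = 0 := by simp [ext1, h2]
    rw [h3]; ring
  rw [h1, Finset.sum_range]
  refine Finset.sum_congr rfl fun i _ => ?_
  have h3 : ext1 lam ((i : ℕ) + 1) = lam i := by simp [ext1]
  rw [h3]; ring

/-- the binomial matrix -/
noncomputable def Bn (e : Fin n → ℕ) : Matrix (Fin n) (Fin n) ℝ :=
  Matrix.of fun j i : Fin n => ((e j).choose ((i : ℕ) + 1) : ℝ)

/-- the coefficients `κ` -/
noncomputable def kap (e : Fin n → ℕ) (i : ℕ) (l : Fin n) : ℝ :=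
  ∑ j, (Bn e)⁻¹ l j * ((e j).choose (i + 1) : ℝ)

theorem kap_spec (e : Fin n → ℕ) (he : Function.Injective e) (h1 : ∀ j, 1 ≤ e j) (i : ℕ)
    (j : Fin n) : ∑ l : Fin n, ((e j).choose ((l : ℕ) + 1) : ℝ) * kap e i l = ((e j).choose (i + 1) : ℝ) := by
  have hu : IsUnit (Bn e).det := isUnit_iff_ne_zero.2 (binom_det e he h1)
  have h2 : Bn e * (Bn e)⁻¹ = 1 := Matrix.mul_nonsing_inv _ hu
  calc ∑ l : Fin n, ((e j).choose ((l : ℕ) + 1) : ℝ) * kap e i l
      = ∑ l : Fin n, ∑ j', (Bn e j l * (Bn e)⁻¹ l j') * ((e j').choose (i + 1) : ℝ) := by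
        refine Finset.sum_congr rfl fun l _ => ?_
        rw [kap, Finset.mul_sum]
        refine Finset.sum_congr rfl fun j' _ => ?_
        rw [Bn]; simp only [Matrix.of_apply]; ring
    _ = ∑ j', (Bn e * (Bn e)⁻¹) j j' * ((e j').choose (i + 1) : ℝ) := by
        rw [Finset.sum_comm]
        refine Finset.sum_congr rfl fun j' _ => ?_
        rw [Matrix.mul_apply, Finset.sum_mul]
    _ = _ := by rw [h2]; simp [Matrix.one_apply]

theorem choose_pow {u : ℝ} (hu : u ≠ 0) (m l : ℕ) :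
    (m.choose l : ℝ) * u ^ (m - l) = (m.choose l : ℝ) * (u ^ m * (u ^ l)⁻¹) := by
  rcases le_or_gt l m with h | h
  · congr 1
    rw [eq_mul_inv_iff_mul_eq₀ (pow_ne_zero _ hu), ← pow_add, Nat.sub_add_cancel h]
  · rw [Nat.choose_eq_zero_of_lt h]; simp

/-- the error term -/
noncomputable def errt (e : Fin n → ℕ) (E : ℕ) (u ρ : ℝ) (lam : ℕ → ℝ) (l : Fin n) : ℝ :=
  ∑ i ∈ Ico n (n + E), kap e i l * (ρ / u) ^ (i - (l : ℕ)) * lam i

/-- the blur term -/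
noncomputable def blur (e : Fin n → ℕ) (u ρ : ℝ) (v : Fin n → ℝ) (l : Fin n) : ℝ :=
  (u / ρ) ^ ((l : ℕ) + 1) * ∑ j, (Bn e)⁻¹ l j * (v j * (u ^ e j)⁻¹)

theorem P_expand (e : Fin n → ℕ) (he : Function.Injective e) (h1 : ∀ j, 1 ≤ e j) {E : ℕ}
    (hE : ∀ j, e j ≤ E) {u ρ : ℝ} (hu : u ≠ 0) (hρ : ρ ≠ 0) (lam : ℕ → ℝ) (v : Fin n → ℝ)
    (j : Fin n) :
    P e u ρ (fun l => lam l + errt e E u ρ lam l + blur e u ρ v l) j =
      u ^ e j + (∑ i ∈ range (e j), ((e j).choose (i + 1) : ℝ) *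
          u ^ (e j - (i + 1)) * ρ ^ (i + 1) * lam i) + v j := by
  have hub : IsUnit (Bn e).det := isUnit_iff_ne_zero.2 (binom_det e he h1)
  have h2 : Bn e * (Bn e)⁻¹ = 1 := Matrix.mul_nonsing_inv _ hub
  have hpu : u ^ e j ≠ 0 := pow_ne_zero _ hu
  rw [P]
  have hterm : ∀ (i : ℕ) (x : ℝ), ((e j).choose (i + 1) : ℝ) * u ^ (e j - (i + 1)) *
      ρ ^ (i + 1) * x = u ^ e j * (((e j).choose (i + 1) : ℝ) * ((ρ / u) ^ (i + 1) * x)) := by
    intro i x
    rw [choose_pow hu, div_pow]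
    field_simp
  simp only [hterm]
  rw [← Finset.mul_sum, ← Finset.mul_sum, sum_choose_extend (e j) (n + E) (by linarith [hE j])]
  have hs1 : ∑ i ∈ range (n + E), ((e j).choose (i + 1) : ℝ) * ((ρ / u) ^ (i + 1) * lam i) =
      ∑ i : Fin n, ((e j).choose ((i : ℕ) + 1) : ℝ) * ((ρ / u) ^ ((i : ℕ) + 1) * lam i) +
      ∑ i ∈ Ico n (n + E), ((e j).choose (i + 1) : ℝ) * ((ρ / u) ^ (i + 1) * lam i) := by
    rw [← Finset.sum_range_add_sum_Ico _ (Nat.le_add_right n E), Finset.sum_range]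
  have hs2 : ∑ l : Fin n, ((e j).choose ((l : ℕ) + 1) : ℝ) * ((ρ / u) ^ ((l : ℕ) + 1) *
      errt e E u ρ lam l) =
      ∑ i ∈ Ico n (n + E), ((e j).choose (i + 1) : ℝ) * ((ρ / u) ^ (i + 1) * lam i) := by
    calc ∑ l : Fin n, ((e j).choose ((l : ℕ) + 1) : ℝ) * ((ρ / u) ^ ((l : ℕ) + 1) *
          errt e E u ρ lam l)
        = ∑ l : Fin n, ∑ i ∈ Ico n (n + E), (((e j).choose ((l : ℕ) + 1) : ℝ) * kap e i l) *
            ((ρ / u) ^ (i + 1) * lam i) := by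
          refine Finset.sum_congr rfl fun l _ => ?_
          rw [errt, Finset.mul_sum, Finset.mul_sum]
          refine Finset.sum_congr rfl fun i hi => ?_
          have hil : (l : ℕ) ≤ i := by
            have := (Finset.mem_Ico.1 hi).1
            omega
          have h3 : (ρ / u) ^ (i + 1) = (ρ / u) ^ ((l : ℕ) + 1) * (ρ / u) ^ (i - (l : ℕ)) := by
            rw [← pow_add]; congr 1; omega
          rw [h3]; ring
      _ = _ := by
          rw [Finset.sum_comm]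
          refine Finset.sum_congr rfl fun i _ => ?_
          rw [← Finset.sum_mul, kap_spec e he h1]
  have hs3 : ∑ l : Fin n, ((e j).choose ((l : ℕ) + 1) : ℝ) * ((ρ / u) ^ ((l : ℕ) + 1) *
      blur e u ρ v l) = v j * (u ^ e j)⁻¹ := by
    calc ∑ l : Fin n, ((e j).choose ((l : ℕ) + 1) : ℝ) * ((ρ / u) ^ ((l : ℕ) + 1) *
          blur e u ρ v l)
        = ∑ l : Fin n, ∑ j', (Bn e j l * (Bn e)⁻¹ l j') * (v j' * (u ^ e j')⁻¹) := by
          refine Finset.sum_congr rfl fun l _ => ?_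
          have h3 : (ρ / u) ^ ((l : ℕ) + 1) * (u / ρ) ^ ((l : ℕ) + 1) = 1 := by
            rw [← mul_pow]
            have : ρ / u * (u / ρ) = 1 := by field_simp
            rw [this, one_pow]
          rw [blur, ← mul_assoc ((ρ / u) ^ ((l : ℕ) + 1)), h3, one_mul, Finset.mul_sum]
          refine Finset.sum_congr rfl fun j' _ => ?_
          rw [Bn]; simp only [Matrix.of_apply]; ring
      _ = ∑ j', (Bn e * (Bn e)⁻¹) j j' * (v j' * (u ^ e j')⁻¹) := by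
          rw [Finset.sum_comm]
          refine Finset.sum_congr rfl fun j' _ => ?_
          rw [Matrix.mul_apply, Finset.sum_mul]
      _ = _ := by rw [h2]; simp [Matrix.one_apply]
  have hs4 : ∑ l : Fin n, ((e j).choose ((l : ℕ) + 1) : ℝ) * ((ρ / u) ^ ((l : ℕ) + 1) *
      (lam l + errt e E u ρ lam l + blur e u ρ v l)) =
      ∑ i : Fin n, ((e j).choose ((i : ℕ) + 1) : ℝ) * ((ρ / u) ^ ((i : ℕ) + 1) * lam i) +
      ∑ i ∈ Ico n (n + E), ((e j).choose (i + 1) : ℝ) * ((ρ / u) ^ (i + 1) * lam i) +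
      v j * (u ^ e j)⁻¹ := by
    rw [← hs2, ← hs3, ← Finset.sum_add_distrib, ← Finset.sum_add_distrib]
    refine Finset.sum_congr rfl fun l _ => ?_
    ring
  rw [hs4, hs1]
  field_simp
  ring

/-- the constant in the bounds -/
noncomputable def kc (e : Fin n → ℕ) (E : ℕ) : ℝ :=
  ∑ l : Fin n, ∑ i ∈ Ico n (n + E), |kap e i l| * 4 ^ (n + E)

noncomputable def bc (e : Fin n → ℕ) (E : ℕ) : ℝ :=
  ∑ l : Fin n, 4 ^ n * ∑ j, |(Bn e)⁻¹ l j| * 4 ^ E

theorem kc_nonneg (e : Fin n → ℕ) (E : ℕ) : 0 ≤ kc e E :=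
  Finset.sum_nonneg fun _ _ => Finset.sum_nonneg fun _ _ => by positivity

theorem bc_nonneg (e : Fin n → ℕ) (E : ℕ) : 0 ≤ bc e E :=
  Finset.sum_nonneg fun _ _ => mul_nonneg (by positivity)
    (Finset.sum_nonneg fun _ _ => by positivity)

theorem errt_bound (e : Fin n → ℕ) (E : ℕ) {u ρ C : ℝ} (hu : 1 / 4 ≤ |u|) (hρ : 0 < ρ)
    (hρ1 : ρ ≤ 1) (hC : 0 ≤ C) {lam : ℕ → ℝ} (hlam : ∀ i, |lam i| ≤ C) (l : Fin n) :
    |errt e E u ρ lam l| ≤ kc e E * C * ρ := by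
  have hupos : 0 < |u| := lt_of_lt_of_le (by norm_num) hu
  have hr : |ρ / u| ≤ 4 * ρ := by
    rw [abs_div, abs_of_pos hρ, div_le_iff₀ hupos]
    nlinarith
  have h1 : ∀ i ∈ Ico n (n + E), |(ρ / u) ^ (i - (l : ℕ))| ≤ 4 ^ (n + E) * ρ := by
    intro i hi
    have hi1 := (Finset.mem_Ico.1 hi).1
    have hi2 := (Finset.mem_Ico.1 hi).2
    have hl := l.2
    have hd1 : 1 ≤ i - (l : ℕ) := by omega
    rw [abs_pow]
    calc |ρ / u| ^ (i - (l : ℕ)) ≤ (4 * ρ) ^ (i - (l : ℕ)) :=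
          pow_le_pow_left₀ (abs_nonneg _) hr _
      _ = 4 ^ (i - (l : ℕ)) * ρ ^ (i - (l : ℕ)) := mul_pow _ _ _
      _ ≤ 4 ^ (n + E) * ρ ^ 1 := by
          refine mul_le_mul (pow_le_pow_right₀ (by norm_num) (by omega))
            (pow_le_pow_of_le_one hρ.le hρ1 hd1) (by positivity) (by positivity)
      _ = 4 ^ (n + E) * ρ := by rw [pow_one]
  calc |errt e E u ρ lam l| ≤ ∑ i ∈ Ico n (n + E), |kap e i l| * 4 ^ (n + E) * (C * ρ) := by
        refine (abs_sum_le_sum_abs _ _).trans (Finset.sum_le_sum fun i hi => ?_)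
        rw [abs_mul, abs_mul]
        calc |kap e i l| * |(ρ / u) ^ (i - (l : ℕ))| * |lam i|
            ≤ |kap e i l| * (4 ^ (n + E) * ρ) * C := by
              refine mul_le_mul ?_ (hlam i) (abs_nonneg _) (by positivity)
              exact mul_le_mul_of_nonneg_left (h1 i hi) (abs_nonneg _)
          _ = _ := by ring
    _ = (∑ i ∈ Ico n (n + E), |kap e i l| * 4 ^ (n + E)) * (C * ρ) := by
        rw [Finset.sum_mul]
    _ ≤ kc e E * (C * ρ) := by
        refine mul_le_mul_of_nonneg_right ?_ (by positivity)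
        exact Finset.single_le_sum (f := fun l : Fin n => ∑ i ∈ Ico n (n + E),
          |kap e i l| * 4 ^ (n + E)) (fun _ _ => Finset.sum_nonneg fun _ _ => by positivity)
          (Finset.mem_univ l)
    _ = _ := by ring

theorem blur_bound (e : Fin n → ℕ) {E : ℕ} (hE : ∀ j, e j ≤ E) {u ρ C : ℝ} (hu : 1 / 4 ≤ |u|)
    (hu4 : |u| ≤ 4) (hρ : 0 < ρ) (hρ1 : ρ ≤ 1) (hC : 0 ≤ C) {v : Fin n → ℝ}
    (hv : ∀ j, |v j| ≤ C * ρ ^ n) (l : Fin n) :
    |blur e u ρ v l| ≤ bc e E * C := by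
  have hupos : 0 < |u| := lt_of_lt_of_le (by norm_num) hu
  have h1 : |(u / ρ) ^ ((l : ℕ) + 1)| ≤ 4 ^ n * (ρ ^ n)⁻¹ := by
    rw [abs_pow, abs_div, abs_of_pos hρ, div_pow, div_eq_mul_inv]
    have hl : (l : ℕ) + 1 ≤ n := l.2
    refine mul_le_mul ?_ ?_ (by positivity) (by positivity)
    · calc |u| ^ ((l : ℕ) + 1) ≤ 4 ^ ((l : ℕ) + 1) := pow_le_pow_left₀ (abs_nonneg _) hu4 _
        _ ≤ 4 ^ n := pow_le_pow_right₀ (by norm_num) hl
    · exact inv_anti₀ (by positivity) (pow_le_pow_of_le_one hρ.le hρ1 hl)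
  have h2 : ∀ j, |v j * (u ^ e j)⁻¹| ≤ (C * ρ ^ n) * 4 ^ E := by
    intro j
    rw [abs_mul]
    refine mul_le_mul (hv j) ?_ (abs_nonneg _) (by positivity)
    rw [abs_inv, abs_pow, ← inv_pow]
    calc (|u|⁻¹) ^ e j ≤ 4 ^ e j := by
          refine pow_le_pow_left₀ (by positivity) ?_ _
          rw [inv_le_comm₀ hupos (by norm_num)]
          linarith
      _ ≤ 4 ^ E := pow_le_pow_right₀ (by norm_num) (hE j)
  rw [blur, abs_mul]
  calc |(u / ρ) ^ ((l : ℕ) + 1)| * |∑ j, (Bn e)⁻¹ l j * (v j * (u ^ e j)⁻¹)|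
      ≤ (4 ^ n * (ρ ^ n)⁻¹) * ∑ j, |(Bn e)⁻¹ l j| * ((C * ρ ^ n) * 4 ^ E) := by
        refine mul_le_mul h1 ?_ (abs_nonneg _) (by positivity)
        refine (abs_sum_le_sum_abs _ _).trans (Finset.sum_le_sum fun j _ => ?_)
        rw [abs_mul]
        exact mul_le_mul_of_nonneg_left (h2 j) (abs_nonneg _)
    _ = (4 ^ n * ∑ j, |(Bn e)⁻¹ l j| * 4 ^ E) * C := by
        have h3 : ∑ j, |(Bn e)⁻¹ l j| * ((C * ρ ^ n) * 4 ^ E) =
            (ρ ^ n * C) * ∑ j, |(Bn e)⁻¹ l j| * 4 ^ E := by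
          rw [Finset.mul_sum]
          refine Finset.sum_congr rfl fun j _ => ?_
          ring
        have h4 : (ρ ^ n)⁻¹ * ρ ^ n = 1 := inv_mul_cancel₀ (by positivity)
        rw [h3]
        calc (4 ^ n * (ρ ^ n)⁻¹) * ((ρ ^ n * C) * ∑ j, |(Bn e)⁻¹ l j| * 4 ^ E)
            = 4 ^ n * ((ρ ^ n)⁻¹ * ρ ^ n) * C * ∑ j, |(Bn e)⁻¹ l j| * 4 ^ E := by ring
          _ = _ := by rw [h4]; ring
    _ ≤ bc e E * C := by
        refine mul_le_mul_of_nonneg_right ?_ hC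
        exact Finset.single_le_sum (f := fun l : Fin n => (4 : ℝ) ^ n * ∑ j,
          |(Bn e)⁻¹ l j| * 4 ^ E) (fun _ _ => mul_nonneg (by positivity)
          (Finset.sum_nonneg fun _ _ => by positivity)) (Finset.mem_univ l)

theorem exists_bound (e : Fin n → ℕ) : ∃ E : ℕ, ∀ j, e j ≤ E :=
  ⟨∑ j, e j, fun j => Finset.single_le_sum (fun _ _ => Nat.zero_le _) (Finset.mem_univ j)⟩

/-- points of a cell of a subarc -/
theorem sub_point (e : Fin n → ℕ) (u σ v ρ' : ℝ) (lam : Fin n → ℝ) (j : Fin n) :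
    P e (u + σ * v) (σ * ρ') lam j =
      u ^ e j + (∑ i ∈ range (e j), ((e j).choose (i + 1) : ℝ) *
          u ^ (e j - (i + 1)) * σ ^ (i + 1) * TT (ext1 lam) v ρ' (i + 1)) + 0 := by
  rw [P_eq_TT, TT_comp, TT_succ]
  have h1 : TT (ext1 lam) v ρ' 0 = 1 := by simp [TT, ext1]
  rw [h1, mul_one, add_zero]
  congr 1
  refine Finset.sum_congr rfl fun i _ => ?_
  ring

theorem PM_inv_bound {v ρ' : ℝ} (hv : 0 ≤ v) (hρ' : 0 < ρ') (h : v + ρ' ≤ 1) {δ : ℝ}
    (y : Fin n → ℝ) (hy : ∀ l, |y l| ≤ δ) (j : Fin n) :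
    |(PM (mom n) (-(v / ρ')) (1 / ρ')).mulVec y j| ≤ n * 2 ^ n * ((ρ' ^ n)⁻¹ * δ) := by
  have hv1 : v ≤ 1 := by linarith
  have hρ1 : ρ' ≤ 1 := by linarith
  have h1 : ∀ i : Fin n, |PM (mom n) (-(v / ρ')) (1 / ρ') j i| ≤ 2 ^ n * (ρ' ^ n)⁻¹ := by
    intro i
    rw [PM, mom]
    rcases le_or_gt ((i : ℕ) + 1) ((j : ℕ) + 1) with hij | hij
    · rw [abs_mul, abs_mul, Nat.abs_cast, abs_pow, abs_pow, abs_neg, abs_of_nonneg
        (by positivity : 0 ≤ v / ρ'), abs_of_nonneg (by positivity : 0 ≤ 1 / ρ')]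
      have h2 : (v / ρ') ^ ((j : ℕ) + 1 - ((i : ℕ) + 1)) ≤ (1 / ρ') ^ ((j : ℕ) + 1 - ((i : ℕ) + 1)) := by
        refine pow_le_pow_left₀ (by positivity) ?_ _
        exact div_le_div_of_nonneg_right hv1 hρ'.le
      have h3 : (((j : ℕ) + 1).choose ((i : ℕ) + 1) : ℝ) ≤ 2 ^ n := by
        have h4 : ((j : ℕ) + 1).choose ((i : ℕ) + 1) ≤ 2 ^ ((j : ℕ) + 1) := Nat.choose_le_two_pow _ _
        have h5 : 2 ^ ((j : ℕ) + 1) ≤ 2 ^ n := Nat.pow_le_pow_right (by norm_num) j.2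
        exact_mod_cast h4.trans h5
      calc (((j : ℕ) + 1).choose ((i : ℕ) + 1) : ℝ) * (v / ρ') ^ ((j : ℕ) + 1 - ((i : ℕ) + 1)) *
            (1 / ρ') ^ ((i : ℕ) + 1)
          ≤ 2 ^ n * (1 / ρ') ^ ((j : ℕ) + 1 - ((i : ℕ) + 1)) * (1 / ρ') ^ ((i : ℕ) + 1) := by
            refine mul_le_mul_of_nonneg_right ?_ (by positivity)
            exact mul_le_mul h3 h2 (by positivity) (by positivity)
        _ = 2 ^ n * (1 / ρ') ^ ((j : ℕ) + 1) := by
            rw [mul_assoc, ← pow_add, Nat.sub_add_cancel hij]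
        _ ≤ 2 ^ n * (1 / ρ') ^ n := by
            refine mul_le_mul_of_nonneg_left ?_ (by positivity)
            refine pow_le_pow_right₀ ?_ j.2
            rw [le_div_iff₀ hρ']; linarith
        _ = _ := by rw [one_div, inv_pow]
    · rw [Nat.choose_eq_zero_of_lt hij]
      simp only [Nat.cast_zero, zero_mul, abs_zero]
      positivity
  calc |(PM (mom n) (-(v / ρ')) (1 / ρ')).mulVec y j|
      ≤ ∑ i : Fin n, 2 ^ n * (ρ' ^ n)⁻¹ * δ := by
        rw [Matrix.mulVec, dotProduct]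
        refine (abs_sum_le_sum_abs _ _).trans (Finset.sum_le_sum fun i _ => ?_)
        rw [abs_mul]
        exact mul_le_mul (h1 i) (hy i) (abs_nonneg _) (by positivity)
    _ = _ := by
        rw [Finset.sum_const, Finset.card_univ, Fintype.card_fin, nsmul_eq_mul]; ring

theorem P_add (e : Fin n → ℕ) (u ρ : ℝ) (lam y : Fin n → ℝ) :
    P e u ρ (lam + y) = P e u ρ lam + (PM e u ρ).mulVec y := by
  rw [P_eq e u ρ (lam + y), P_eq e u ρ lam, Matrix.mulVec_add, add_assoc]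

end CC

open CC

theorem cell_fat (e : Fin n → ℕ) (he : Function.Injective e) (h1 : ∀ j, 1 ≤ e j) {C : ℝ}
    (hC : 0 ≤ C) : ∃ C' : ℝ, 1 ≤ C' ∧ ∀ u ρ : ℝ, 1 / 4 ≤ |u| → |u| ≤ 4 → 0 < ρ → ρ ≤ 1 →
      ∀ lam : ℕ → ℝ, (∀ i, |lam i| ≤ C) → ∀ v : Fin n → ℝ, (∀ j, |v j| ≤ C * ρ ^ n) →
        (fun j => u ^ e j + (∑ i ∈ range (e j), ((e j).choose (i + 1) : ℝ) *
          u ^ (e j - (i + 1)) * ρ ^ (i + 1) * lam i) + v j) ∈ cell e u ρ C' := by
  obtain ⟨E, hE⟩ := exists_bound e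
  refine ⟨1 + C + kc e E * C + bc e E * C, ?_, ?_⟩
  · have := kc_nonneg e E
    have := bc_nonneg e E
    have h3 : 0 ≤ kc e E * C := by positivity
    have h4 : 0 ≤ bc e E * C := by positivity
    linarith
  intro u ρ hu hu4 hρ hρ1 lam hlam v hv
  have hu0 : u ≠ 0 := by
    intro h; rw [h, abs_zero] at hu; linarith
  refine ⟨fun l => lam l + errt e E u ρ lam l + blur e u ρ v l, ?_, ?_⟩
  · intro l
    have h2 := errt_bound e E hu hρ hρ1 hC hlam l
    have h3 := blur_bound e hE hu hu4 hρ hρ1 hC hv l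
    have h4 : kc e E * C * ρ ≤ kc e E * C :=
      mul_le_of_le_one_right (mul_nonneg (kc_nonneg e E) hC) hρ1
    calc |lam l + errt e E u ρ lam l + blur e u ρ v l|
        ≤ |lam l| + |errt e E u ρ lam l| + |blur e u ρ v l| := abs_add_three _ _ _
      _ ≤ _ := by linarith [hlam l]
  · funext j
    exact P_expand e he h1 hE hu0 hρ.ne' lam v j

theorem cell_nest (e : Fin n → ℕ) (he : Function.Injective e) (h1 : ∀ j, 1 ≤ e j) {C : ℝ}
    (hC : 1 ≤ C) : ∃ C' : ℝ, 1 ≤ C' ∧ ∀ u σ v ρ' : ℝ, 1 / 4 ≤ |u| → |u| ≤ 4 → 0 < σ → σ ≤ 1 →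
      0 ≤ v → 0 < ρ' → v + ρ' ≤ 1 →
        cell e (u + σ * v) (σ * ρ') C ⊆ cell e u σ C' := by
  have hC0 : 0 ≤ C := zero_le_one.trans hC
  obtain ⟨C', hC', h⟩ := cell_fat e he h1 hC0
  refine ⟨C', hC', ?_⟩
  intro u σ v ρ' hu hu4 hσ hσ1 hv hρ' hvρ X hX
  obtain ⟨lam, hlam, rfl⟩ := hX
  have h2 : P e (u + σ * v) (σ * ρ') lam = fun j => u ^ e j + (∑ i ∈ range (e j),
      ((e j).choose (i + 1) : ℝ) * u ^ (e j - (i + 1)) * σ ^ (i + 1) *
        TT (ext1 lam) v ρ' (i + 1)) + 0 := by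
    funext j; exact sub_point e u σ v ρ' lam j
  rw [h2]
  refine h u σ hu hu4 hσ hσ1 (fun i => TT (ext1 lam) v ρ' (i + 1)) (fun i => ?_) (fun _ => 0)
    (fun j => ?_)
  · exact TT_bound hC0 (ext1_bound hC hlam) hv hρ'.le hvρ _
  · rw [abs_zero]; positivity

theorem cell_conv (e : Fin n → ℕ) (he : Function.Injective e) (h1 : ∀ j, 1 ≤ e j) {C : ℝ}
    (hC : 1 ≤ C) : ∃ C' : ℝ, 1 ≤ C' ∧ ∀ u σ v ρ' : ℝ, 1 / 4 ≤ |u| → |u| ≤ 4 → 0 < σ → σ ≤ 1 →
      0 ≤ v → 0 < ρ' → v + ρ' ≤ 1 → σ ≤ ρ' ^ n →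
        cell e (u + σ * v) (σ * ρ') C ⊆ P e u σ '' cell (mom n) v ρ' C' := by
  have hC0 : 0 ≤ C := zero_le_one.trans hC
  obtain ⟨E, hE⟩ := exists_bound e
  refine ⟨C + n * 2 ^ n * (kc e E * C), ?_, ?_⟩
  · have h3 : 0 ≤ n * 2 ^ n * (kc e E * C) :=
      mul_nonneg (by positivity) (mul_nonneg (kc_nonneg e E) hC0)
    linarith
  intro u σ v ρ' hu hu4 hσ hσ1 hv hρ' hvρ hσρ X hX
  obtain ⟨lam, hlam, rfl⟩ := hX
  have hu0 : u ≠ 0 := by
    intro h; rw [h, abs_zero] at hu; linarith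
  set mu : ℕ → ℝ := fun i => TT (ext1 lam) v ρ' (i + 1) with hmu
  have hmub : ∀ i, |mu i| ≤ C := fun i =>
    TT_bound hC0 (ext1_bound hC hlam) hv hρ'.le hvρ _
  set err : Fin n → ℝ := fun l => errt e E u σ mu l with herr
  have herrb : ∀ l, |err l| ≤ kc e E * C * σ := fun l =>
    errt_bound e E hu hσ hσ1 hC0 hmub l
  -- the point in the chart
  have hX1 : P e (u + σ * v) (σ * ρ') lam = P e u σ (P (mom n) v ρ' lam + err) := by
    funext j
    rw [sub_point]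
    have h2 := P_expand e he h1 hE hu0 hσ.ne' mu (fun _ => 0) j
    have h3 : (fun l : Fin n => mu l + errt e E u σ mu l + blur e u σ (fun _ => 0) l) =
        P (mom n) v ρ' lam + err := by
      funext l
      have h4 : blur e u σ (fun _ => 0) l = 0 := by simp [blur]
      have h5 : P (mom n) v ρ' lam l = mu l := by
        rw [P_eq_TT]; rfl
      rw [h4, add_zero, Pi.add_apply, h5]
    rw [h3] at h2
    rw [h2]
  -- the preimage
  set Z : Fin n → ℝ := (PM (mom n) (-(v / ρ')) (1 / ρ')).mulVec err with hZ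
  have hback : P (mom n) (-(v / ρ')) (1 / ρ') (P (mom n) v ρ' lam + err) = lam + Z := by
    rw [P_add, P_comp]
    have h2 : -(v / ρ') + 1 / ρ' * v = 0 := by field_simp; ring
    have h3 : 1 / ρ' * ρ' = 1 := by field_simp
    rw [h2, h3, P_zero_one]
  have hforth : P (mom n) v ρ' (lam + Z) = P (mom n) v ρ' lam + err := by
    rw [← hback, P_comp]
    have h2 : v + ρ' * -(v / ρ') = 0 := by field_simp; ring
    have h3 : ρ' * (1 / ρ') = 1 := by field_simp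
    rw [h2, h3, P_zero_one]
  refine ⟨P (mom n) v ρ' (lam + Z), ⟨lam + Z, ?_, rfl⟩, ?_⟩
  · intro j
    have h2 := PM_inv_bound hv hρ' hvρ err herrb j
    have h3 : (ρ' ^ n)⁻¹ * (kc e E * C * σ) ≤ kc e E * C := by
      rw [inv_mul_le_iff₀ (by positivity)]
      calc kc e E * C * σ ≤ kc e E * C * ρ' ^ n :=
            mul_le_mul_of_nonneg_left hσρ (mul_nonneg (kc_nonneg e E) hC0)
        _ = _ := by ring
    calc |(lam + Z) j| ≤ |lam j| + |Z j| := abs_add_le _ _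
      _ ≤ C + n * 2 ^ n * (kc e E * C) := by
          refine add_le_add (hlam j) (h2.trans ?_)
          exact mul_le_mul_of_nonneg_left h3 (by positivity)
  · rw [hforth, ← hX1]

end Pool.Agent.DL
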